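import Pool.Agent.Lib_helper97.Ebe.XDefs
import Pool.Agent.Lib_helper26.Ebe.Sq
import Pool.Agent.Lib_helper26.Ebe.Lev

/-!
# Block GN: generic failure of `N2`
-/

namespace Pool.Agent.Lib_helper97.Ebe

open MvPolynomial Module Pool.Agent.Lib_helper26.Ebe Pool.Agent.Lib_helper26.SOS

variable {n m : ℕ}

/-- Chain rule for the substitution of a linear map. -/
theorem wGN_pderiv_sub {j : ℕ} (g : Fin n × Fin j → ℂ) (l : Fin j)
    (f : MvPolynomial (Fin n) ℂ) :
    pderiv l (sub g f) = ∑ i, C (g (i, l)) * sub g (pderiv i f) := by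
  classical
  induction f using MvPolynomial.induction_on with
  | C a => simp [sub, MvPolynomial.algebraMap_eq]
  | add p q hp hq => simp only [map_add, hp, hq, mul_add, Finset.sum_add_distrib]
  | mul_X p i hp =>
    have hX : pderiv l (sub g (X i)) = C (g (i, l)) := by
      unfold sub
      rw [aeval_X, map_sum, Finset.sum_eq_single l]
      · rw [pderiv_C_mul, pderiv_X_self, mul_one]
      · intro k _ hk
        rw [pderiv_C_mul, pderiv_X_of_ne hk, mul_zero]
      · simp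
    rw [map_mul, pderiv_mul, hp, hX]
    have h1 : ∀ k, C (g (k, l)) * sub g (pderiv k (p * X i)) =
        C (g (k, l)) * sub g (pderiv k p) * sub g (X i) +
          if k = i then sub g p * C (g (i, l)) else 0 := by
      intro k
      rw [pderiv_mul, map_add, map_mul, map_mul]
      by_cases hk : k = i
      · subst hk
        rw [pderiv_X_self, map_one, if_pos rfl]
        ring
      · rw [pderiv_X_of_ne (Ne.symm hk), map_zero, if_neg hk]
        ring
    rw [Finset.sum_congr rfl (fun k _ => h1 k), Finset.sum_add_distrib, Finset.sum_mul]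
    simp

/-- Divisibility by the square of a linear form. -/
theorem wGN_sq_dvd_iff {b : Fin n → ℂ} (hb : b ≠ 0) (f : MvPolynomial (Fin n) ℂ) :
    lf b ^ 2 ∣ f ↔ (∀ z ∈ kr b, eval z f = 0) ∧ ∀ i, ∀ z ∈ kr b, eval z (pderiv i f) = 0 := by
  constructor
  · rintro ⟨g, rfl⟩
    refine ⟨fun z hz => ?_, fun i z hz => ?_⟩
    · rw [map_mul, map_pow, eval_lf', show krl b z = 0 from hz]
      ring
    · rw [pderiv_mul, pderiv_pow, map_add, map_mul, map_mul, map_mul, map_mul, map_pow,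
        map_pow, eval_lf', show krl b z = 0 from hz]
      simp
  · rintro ⟨h0, h1⟩
    obtain ⟨w, rfl⟩ := (lf_dvd_iff hb f).mpr h0
    obtain ⟨i, hi⟩ := Function.ne_iff.mp hb
    have hi' : b i ≠ 0 := hi
    have h2 : lf b ∣ w := by
      rw [lf_dvd_iff hb]
      intro z hz
      have h3 := h1 i z hz
      rw [pderiv_mul, pderiv_lf, map_add, map_mul, map_mul, eval_C, eval_lf',
        show krl b z = 0 from hz, zero_mul, add_zero] at h3
      exact (mul_eq_zero.mp h3).resolve_left hi'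
    rw [pow_two]
    exact mul_dvd_mul_left _ h2

theorem wGN_pr {n : ℕ} (V : Submodule ℂ (MvPolynomial (Fin n) ℂ)) [FiniteDimensional ℂ V] {j : ℕ}
    (hj : 1 ≤ j) (h : ¬ N2 V j) :
    Gen (fun x : (Fin n × Fin j) ⊕ Fin j → ℂ =>
      ∃ v ∈ V.map (sub (x ∘ Sum.inl)).toLinearMap, v ≠ 0 ∧ lf (x ∘ Sum.inr) ^ 2 ∣ v) := by
  classical
  -- the complement
  obtain ⟨g₀, hg₀⟩ := exists_mvan V (rangeF n j)
  obtain ⟨W, hWV, hdis, hrk⟩ := exists_compl_van V _ (van_le V (Zs (rangeF n j) g₀))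
  have : FiniteDimensional ℂ W := Submodule.finiteDimensional_of_le hWV
  have h0 : van W (Zs (rangeF n j) g₀) = ⊥ := by
    rw [eq_bot_iff]
    intro v hv
    exact hdis.le_bot ⟨⟨hWV hv.1, hv.2⟩, hv.1⟩
  have hinj : Gen (fun g : Fin n × Fin j → ℂ =>
      V.map (sub g).toLinearMap = W.map (sub g).toLinearMap ∧
        ∀ v ∈ W, sub g v = 0 → v = 0) := by
    refine ((gen_van_eq_bot W (rangeF n j) g₀ h0).and (gen_rk V j)).mono fun g hg => ?_
    obtain ⟨h1, h2⟩ := hg
    rw [Zs_rangeF] at h1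
    have h3 := finrank_map_add_van W g
    rw [h1, finrank_bot, add_zero] at h3
    have h4 := rk_add_mvan V j
    refine ⟨?_, fun v hv hv0 => ?_⟩
    · refine (Submodule.eq_of_le_of_finrank_eq (Submodule.map_mono hWV) ?_).symm
      omega
    · have h5 : v ∈ van W (Set.range (mv g)) := ⟨hv, (sub_eq_zero_iff g v).mp hv0⟩
      rwa [h1, Submodule.mem_bot] at h5
  let p : Fin (finrank ℂ W) → MvPolynomial (Fin n) ℂ := fun k => (finBasis ℂ W k).1
  have hp : LinearIndependent ℂ p :=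
    (finBasis ℂ W).linearIndependent.map' W.subtype W.ker_subtype
  have hpW : ∀ k, p k ∈ W := fun k => (finBasis ℂ W k).2
  have hrep : ∀ v ∈ W, ∃ c : Fin (finrank ℂ W) → ℂ, v = ∑ k, c k • p k := by
    intro v hv
    refine ⟨fun k => (finBasis ℂ W).repr ⟨v, hv⟩ k, ?_⟩
    have := (finBasis ℂ W).sum_repr ⟨v, hv⟩
    have := congrArg Subtype.val this
    rw [Submodule.coe_sum] at this
    exact this.symm
  -- the moving point
  let P : (Fin j → MvPolynomial (Fin j) ℂ) → Fin n → MvPolynomial ((Fin n × Fin j) ⊕ Fin j) ℂ :=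
    fun Y i => ∑ l, X (Sum.inl (i, l)) * rename Sum.inr (Y l)
  have hP : ∀ (x : (Fin n × Fin j) ⊕ Fin j → ℂ) (Y : Fin j → MvPolynomial (Fin j) ℂ)
      (f : MvPolynomial (Fin n) ℂ), eval x (aeval (P Y) f) =
        eval (fun l => eval (x ∘ Sum.inr) (Y l)) (sub (x ∘ Sum.inl) f) := by
    intro x Y f
    rw [eval_aeval, eval_sub]
    congr 2
    funext i
    simp only [P, mv, map_sum, map_mul, eval_X, eval_rename, Function.comp_apply]
  have hkr : ∀ b : Fin j → ℂ, b ≠ 0 → ∀ z, z ∈ kr b ↔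
      ∃ Y ∈ kerF j, z = fun l => eval b (Y l) := by
    intro b hb z
    have h1 : z ∈ Zs (kerF j) b ↔ z ∈ (kr b : Set (Fin j → ℂ)) := by rw [Zs_kerF hb]
    exact h1.symm
  let R : Set (Fin (finrank ℂ W) → MvPolynomial ((Fin n × Fin j) ⊕ Fin j) ℂ) :=
    {r | ∃ Y ∈ kerF j, r = fun k => aeval (P Y) (p k)} ∪
      {r | ∃ Y ∈ kerF j, ∃ l, r = fun k =>
        ∑ i, X (Sum.inl (i, l)) * aeval (P Y) (pderiv i (p k))}
  -- the rows say that the square divides
  have hrow : ∀ (x : (Fin n × Fin j) ⊕ Fin j → ℂ) (hb : x ∘ Sum.inr ≠ 0)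
      (c : Fin (finrank ℂ W) → ℂ),
      (∀ r ∈ R, ∑ k, eval x (r k) * c k = 0) ↔
        lf (x ∘ Sum.inr) ^ 2 ∣ sub (x ∘ Sum.inl) (∑ k, c k • p k) := by
    intro x hb c
    have e1 : ∀ Y : Fin j → MvPolynomial (Fin j) ℂ,
        ∑ k, eval x (aeval (P Y) (p k)) * c k =
          eval (fun l => eval (x ∘ Sum.inr) (Y l)) (sub (x ∘ Sum.inl) (∑ k, c k • p k)) := by
      intro Y
      rw [map_sum, map_sum]
      refine Finset.sum_congr rfl fun k _ => ?_
      rw [hP, map_smul, smul_eval, mul_comm]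
    have e2 : ∀ (Y : Fin j → MvPolynomial (Fin j) ℂ) (l : Fin j),
        ∑ k, eval x (∑ i, X (Sum.inl (i, l)) * aeval (P Y) (pderiv i (p k))) * c k =
          eval (fun l => eval (x ∘ Sum.inr) (Y l))
            (pderiv l (sub (x ∘ Sum.inl) (∑ k, c k • p k))) := by
      intro Y l
      rw [map_sum, map_sum, map_sum]
      refine Finset.sum_congr rfl fun k _ => ?_
      rw [map_smul, Derivation.map_smul, smul_eval, wGN_pderiv_sub, map_sum, map_sum, mul_comm]
      congr 1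
      refine Finset.sum_congr rfl fun i _ => ?_
      rw [map_mul, map_mul, hP, eval_X, eval_C]
      rfl
    rw [wGN_sq_dvd_iff hb]
    constructor
    · intro hr
      refine ⟨fun z hz => ?_, fun l z hz => ?_⟩
      · obtain ⟨Y, hY, rfl⟩ := (hkr _ hb z).mp hz
        rw [← e1]
        exact hr _ (Or.inl ⟨Y, hY, rfl⟩)
      · obtain ⟨Y, hY, rfl⟩ := (hkr _ hb z).mp hz
        rw [← e2]
        exact hr _ (Or.inr ⟨Y, hY, l, rfl⟩)
    · rintro ⟨h1, h2⟩ r (⟨Y, hY, rfl⟩ | ⟨Y, hY, l, rfl⟩)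
      · rw [e1]
        exact h1 _ ((hkr _ hb _).mpr ⟨Y, hY, rfl⟩)
      · rw [e2]
        exact h2 l _ ((hkr _ hb _).mpr ⟨Y, hY, rfl⟩)
  have hb0 : Gen (fun x : (Fin n × Fin j) ⊕ Fin j → ℂ => x ∘ Sum.inr ≠ 0) :=
    (gen_ne_zero (n := j) hj).snd
  have hgood : Gen (fun x : (Fin n × Fin j) ⊕ Fin j → ℂ =>
      V.map (sub (x ∘ Sum.inl)).toLinearMap = W.map (sub (x ∘ Sum.inl)).toLinearMap ∧
        ∀ v ∈ W, sub (x ∘ Sum.inl) v = 0 → v = 0) := hinj.fst
  rcases kernel_dichotomy R with hR | ⟨x, hx0, hx⟩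
  · exfalso
    apply h
    refine ((hR.and hb0).and hgood).mono fun x hx => ?_
    obtain ⟨⟨hx1, hxb⟩, hxV, -⟩ := hx
    intro v hv hd
    rw [hxV] at hv
    obtain ⟨v₀, hv₀, rfl⟩ := hv
    obtain ⟨c, rfl⟩ := hrep v₀ hv₀
    have hc : c = 0 := hx1 c ((hrow x hxb c).mpr hd)
    rw [hc]
    simp
  · obtain ⟨k, hk⟩ := Function.ne_iff.mp hx0
    have hk' : Gen (fun y : (Fin n × Fin j) ⊕ Fin j → ℂ => eval y (x k) ≠ 0) :=
      ⟨x k, hk, fun _ hy => hy⟩
    refine ((hk'.and hb0).and hgood).mono fun y hy => ?_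
    obtain ⟨⟨hyk, hyb⟩, hyV, hyi⟩ := hy
    have hmem : ∑ k, eval y (x k) • p k ∈ W := W.sum_mem fun k _ => W.smul_mem _ (hpW k)
    refine ⟨sub (y ∘ Sum.inl) (∑ k, eval y (x k) • p k), ?_, ?_, ?_⟩
    · rw [hyV]
      exact ⟨_, hmem, rfl⟩
    · intro h1
      have h2 := hyi _ hmem h1
      exact hyk (Fintype.linearIndependent_iff.mp hp _ h2 k)
    · rw [← hrow y hyb]
      intro r hr
      have h1 := congrArg (eval y) (hx r hr)
      rw [map_sum, map_zero] at h1
      rw [← h1]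
      exact Finset.sum_congr rfl fun k _ => (map_mul _ _ _).symm

end Pool.Agent.Lib_helper97.Ebe
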