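import Pool.Agent.Lib_helper97.Ebe.XDefs
import Pool.Agent.Lib_helper26.Ebe.Sq

/-!
# Block Y: the second order lemma
-/

namespace Pool.Agent.Lib_helper97.Ebe

open MvPolynomial Module Pool.Agent.Lib_helper26.Ebe Pool.Agent.Lib_helper26.SOS

variable {n m : ℕ}

theorem wY_fam_C_mul (c : ℂ) (p x : Fin m → MvPolynomial (Fin n) ℂ) :
    fam p (fun k => C c * x k) = C c * fam p x := by
  unfold fam
  rw [Finset.mul_sum]
  refine Finset.sum_congr rfl fun k _ => ?_
  rw [map_mul, rename_C]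
  ring

theorem wY_pderiv_prod (i : Fin n) (l : List (Fin n)) :
    pderiv (Sum.inr i) ((l.map fun k => (X (Sum.inl k) :
      MvPolynomial (Fin n ⊕ Fin n) ℂ)).prod) = 0 := by
  classical
  induction l with
  | nil => simp
  | cons k l ih =>
    rw [List.map_cons, List.prod_cons, pderiv_mul, ih, mul_zero, add_zero,
      pderiv_X_of_ne (by simp), zero_mul]

/-- The derivatives of the family. -/
theorem wY_fam_deriv (p x : Fin m → MvPolynomial (Fin n) ℂ) (a : ℕ)
    (w : MvPolynomial (Fin n ⊕ Fin n) ℂ) (hF : fam p x = q n ^ a * w) (l : List (Fin n)) :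
    ∀ t, l.length + t = a → ∃ (y : Fin m → MvPolynomial (Fin n) ℂ)
      (r : MvPolynomial (Fin n ⊕ Fin n) ℂ),
      fam p y = (l.map fun k => X (Sum.inl k)).prod * q n ^ t * w + q n ^ (t + 1) * r := by
  induction l with
  | nil =>
    intro t ht
    refine ⟨x, 0, ?_⟩
    rw [List.length_nil, zero_add] at ht
    rw [hF, ht, List.map_nil, List.prod_nil, one_mul, mul_zero, add_zero]
  | cons i l ih =>
    intro t ht
    obtain ⟨y, r, hy⟩ := ih (t + 1) (by rw [List.length_cons] at ht; omega)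
    have ht0 : ((t : ℂ) + 1) ≠ 0 := by exact_mod_cast Nat.succ_ne_zero t
    refine ⟨fun k => C ((t : ℂ) + 1)⁻¹ * pderiv i (y k), C ((t : ℂ) + 1)⁻¹ *
      ((l.map fun k => X (Sum.inl k)).prod * pderiv (Sum.inr i) w +
        ((t : MvPolynomial (Fin n ⊕ Fin n) ℂ) + 1 + 1) * X (Sum.inl i) * r + q n * pderiv (Sum.inr i) r), ?_⟩
    rw [wY_fam_C_mul, ← pderiv_inr_fam, hy, map_add, pderiv_mul, pderiv_mul, pderiv_mul,
      wY_pderiv_prod, pderiv_pow, pderiv_pow, pderiv_inr_q, List.map_cons, List.prod_cons]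
    have hC : (C ((t : ℂ) + 1)⁻¹ : MvPolynomial (Fin n ⊕ Fin n) ℂ) * (t + 1) = 1 := by
      have : ((t : MvPolynomial (Fin n ⊕ Fin n) ℂ) + 1) = C ((t : ℂ) + 1) := by simp
      rw [this, ← C_mul, inv_mul_cancel₀ ht0, C_1]
    have e1 : t + 1 - 1 = t := by omega
    have e2 : t + 1 + 1 - 1 = t + 1 := by omega
    rw [e1, e2]
    push_cast
    generalize hc : (C ((t : ℂ) + 1)⁻¹ : MvPolynomial (Fin n ⊕ Fin n) ℂ) = c at hC ⊢
    have e3 : c * ((t : MvPolynomial (Fin n ⊕ Fin n) ℂ) + 1) * ((l.map fun k => X (Sum.inl k)).prod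
        * q n ^ t * X (Sum.inl i) * w) = (l.map fun k => X (Sum.inl k)).prod
        * q n ^ t * X (Sum.inl i) * w := by rw [hC, one_mul]
    generalize (l.map fun k => (X (Sum.inl k) : MvPolynomial (Fin n ⊕ Fin n) ℂ)).prod = M at e3 ⊢
    linear_combination e3

/-- Generically a family not divisible by `q` is not divisible by the linear form. -/
theorem wY_gen_not_dvd (hn : 2 ≤ n) (w : MvPolynomial (Fin n ⊕ Fin n) ℂ) (hw : ¬ q n ∣ w) :
    Gen (fun b : Fin n → ℂ => ¬ lf b ∣ sp b w) := by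
  obtain ⟨z, b, hzb, hwb, hb0⟩ := exists_point hn w hw ⟨0, by omega⟩
  have hbn : b ≠ 0 := by
    rintro rfl
    exact hb0 rfl
  have hz : z ∈ Zs (kerF n) b := by
    rw [Zs_kerF hbn, SetLike.mem_coe, mem_kr, ← hzb]
    exact Finset.sum_congr rfl fun i _ => mul_comm _ _
  obtain ⟨Y, hY, rfl⟩ := hz
  have hev : ∀ c : Fin n → ℂ, eval c (aeval (Sum.elim Y X) w : MvPolynomial (Fin n) ℂ) =
      eval (Sum.elim (fun i => eval c (Y i)) c) w := by
    intro c
    have : ((eval c).comp ((aeval (Sum.elim Y X) :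
        MvPolynomial (Fin n ⊕ Fin n) ℂ →ₐ[ℂ] MvPolynomial (Fin n) ℂ) :
        MvPolynomial (Fin n ⊕ Fin n) ℂ →+* MvPolynomial (Fin n) ℂ)) =
        eval (Sum.elim (fun i => eval c (Y i)) c) := by
      apply MvPolynomial.ringHom_ext
      · intro r
        simp [MvPolynomial.algebraMap_eq]
      · rintro (i | i) <;> simp
    exact RingHom.congr_fun this w
  have hgen : Gen (fun c : Fin n → ℂ =>
      eval (Sum.elim (fun i => eval c (Y i)) c) w ≠ 0) := by
    refine ⟨aeval (Sum.elim Y X) w, ?_, fun c hc => ?_⟩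
    · intro h0
      apply hwb
      rw [← hev, h0, map_zero]
    · rwa [hev] at hc
  refine (hgen.and (gen_ne_zero (by omega))).mono fun c hc hd => ?_
  obtain ⟨hc1, hc0⟩ := hc
  apply hc1
  have h1 : (fun i => eval c (Y i)) ∈ Zs (kerF n) c := ⟨Y, hY, rfl⟩
  rw [Zs_kerF hc0] at h1
  have h2 := (lf_dvd_iff hc0 _).mp hd _ h1
  rwa [eval_sp] at h2

theorem wY_lf_single (i : Fin n) : lf (Pi.single i 1 : Fin n → ℂ) = X i := by
  unfold lf
  rw [Finset.sum_eq_single i]
  · simp
  · intro j _ hj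
    simp [hj]
  · simp

theorem wY_pr {n : ℕ} (hn : 2 ≤ n) (V : Submodule ℂ (MvPolynomial (Fin n) ℂ))
    [FiniteDimensional ℂ V]
    (h : ¬ Gen (fun b : Fin n → ℂ => ∀ v ∈ V, lf b ^ 2 ∣ v → v = 0)) :
    Gen (fun b : Fin n → ℂ => ∃ φ : MvPolynomial (Fin n) ℂ, ¬ lf b ∣ φ ∧
      (∀ a, ∃ u ∈ U V b, lf b ∣ u - lf a * φ) ∧
      (∀ a c, ∃ v ∈ V, lf b ∣ v - lf a * lf c * φ) ∧
      ∃ y ∈ U V b, y ≠ 0 ∧ lf b ∣ y) := by
  classical
  let p : Fin (finrank ℂ V) → MvPolynomial (Fin n) ℂ := fun j => (finBasis ℂ V j).1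
  have hp : LinearIndependent ℂ p :=
    (finBasis ℂ V).linearIndependent.map' V.subtype V.ker_subtype
  have hpV : ∀ j, p j ∈ V := fun j => (finBasis ℂ V j).2
  have hrep : ∀ v ∈ V, ∃ c : Fin (finrank ℂ V) → ℂ, v = ∑ j, c j • p j := by
    intro v hv
    refine ⟨fun j => (finBasis ℂ V).repr ⟨v, hv⟩ j, ?_⟩
    have := (finBasis ℂ V).sum_repr ⟨v, hv⟩
    have := congrArg Subtype.val this
    rw [Submodule.coe_sum] at this
    exact this.symm
  rcases kernel_dichotomy (τ := Fin n)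
    ({r | ∃ Y ∈ kerF n, r = fun j => aeval Y (p j)} ∪
      {r | ∃ Y ∈ kerF n, ∃ i, r = fun j => aeval Y (pderiv i (p j))} :
        Set (Fin (finrank ℂ V) → MvPolynomial (Fin n) ℂ)) with h' | ⟨x, hx0, hx⟩
  · exfalso
    apply h
    refine (h'.and (gen_ne_zero (by omega))).mono fun b hb v hvV hv => ?_
    obtain ⟨hb, hb0⟩ := hb
    obtain ⟨c, hc⟩ := hrep v hvV
    obtain ⟨g, hg⟩ := hv
    have hkr : ∀ Y ∈ kerF n, krl b (fun i => eval b (Y i)) = 0 := by
      intro Y hY
      have : (fun i => eval b (Y i)) ∈ Zs (kerF n) b := ⟨Y, hY, rfl⟩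
      rw [Zs_kerF hb0] at this
      exact this
    have hc0 : c = 0 := by
      apply hb
      rintro r (⟨Y, hY, rfl⟩ | ⟨Y, hY, i, rfl⟩)
      · have h1 : eval (fun i => eval b (Y i)) v = 0 := by
          rw [hg, map_mul, map_pow, eval_lf', hkr Y hY]
          ring
        rw [hc, map_sum] at h1
        rw [← h1]
        refine Finset.sum_congr rfl fun j _ => ?_
        rw [eval_aeval, smul_eval, mul_comm]
      · have h1 : eval (fun i => eval b (Y i)) (pderiv i v) = 0 := by
          rw [hg, pderiv_mul, pderiv_pow, map_add, map_mul, map_mul, map_mul, map_mul, map_pow,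
            map_pow, eval_lf', hkr Y hY]
          simp
        rw [hc, map_sum, map_sum] at h1
        rw [← h1]
        refine Finset.sum_congr rfl fun j _ => ?_
        rw [eval_aeval, Derivation.map_smul, smul_eval, mul_comm]
    rw [hc, hc0]
    simp
  -- the family
  have hv0 := fam_ne_zero hp hx0
  have hqv : q n ∣ fam p x := by
    apply q_dvd_of_eval hn
    intro z b hb hz
    have : z ∈ Zs (kerF n) b := by
      rw [Zs_kerF hb]
      exact hz
    obtain ⟨Y, hY, rfl⟩ := this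
    have h1 := congrArg (eval b) (hx _ (Or.inl ⟨Y, hY, rfl⟩))
    rw [map_sum, map_zero] at h1
    rw [eval_fam, ← h1]
    refine Finset.sum_congr rfl fun j _ => ?_
    rw [map_mul, eval_aeval]
  have hqv' : ∀ i, q n ∣ pderiv (Sum.inl i) (fam p x) := by
    intro i
    rw [pderiv_inl_fam]
    apply q_dvd_of_eval hn
    intro z b hb hz
    have : z ∈ Zs (kerF n) b := by
      rw [Zs_kerF hb]
      exact hz
    obtain ⟨Y, hY, rfl⟩ := this
    have h1 := congrArg (eval b) (hx _ (Or.inr ⟨Y, hY, i, rfl⟩))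
    rw [map_sum, map_zero] at h1
    rw [eval_fam, ← h1]
    refine Finset.sum_congr rfl fun j _ => ?_
    rw [map_mul, eval_aeval]
  have hq := q_prime hn
  obtain ⟨k, w, hw, hk⟩ : ∃ k w, ¬ q n ∣ w ∧ fam p x = q n ^ k * w := by
    have hf : FiniteMultiplicity (q n) (fam p x) :=
      FiniteMultiplicity.of_not_isUnit hq.not_isUnit hv0
    obtain ⟨c, hc, hc'⟩ := hf.exists_eq_pow_mul_and_not_dvd
    exact ⟨_, c, hc', hc⟩
  obtain ⟨e, rfl⟩ : ∃ e, k = e + 2 := by
    rcases k with _ | _ | e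
    · rw [pow_zero, one_mul] at hk
      rw [hk] at hqv
      exact absurd hqv hw
    · rw [zero_add, pow_one] at hk
      have h1 := hqv' ⟨0, by omega⟩
      rw [hk, pderiv_mul, pderiv_inl_q] at h1
      have h2 := (dvd_add_left (dvd_mul_right _ _)).mp h1
      rcases hq.dvd_or_dvd h2 with h3 | h3
      · rw [← rename_X (Sum.inr : Fin n → Fin n ⊕ Fin n)] at h3
        exact absurd h3 (q_not_dvd_inr (X_ne_zero _))
      · exact absurd h3 hw
    · exact ⟨e, rfl⟩
  let i₀ : Fin n := ⟨0, by omega⟩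
  let i₁ : Fin n := ⟨1, by omega⟩
  have hb1 : Gen (fun b : Fin n → ℂ => b i₁ ≠ 0) :=
    ⟨X i₁, X_ne_zero _, fun b hb => by rwa [eval_X] at hb⟩
  refine ((wY_gen_not_dvd hn w hw).and hb1).mono fun b hb => ?_
  obtain ⟨hwb, hb1⟩ := hb
  have hbn : b ≠ 0 := by
    rintro rfl
    exact hb1 rfl
  have hspV : ∀ y : Fin (finrank ℂ V) → MvPolynomial (Fin n) ℂ, sp b (fam p y) ∈ V := by
    intro y
    rw [sp_fam]
    exact V.sum_mem fun j _ => V.smul_mem _ (hpV j)
  have hspX : ∀ i, sp b (X (Sum.inl i)) = X i := by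
    intro i
    rw [← rename_X (Sum.inl : Fin n → Fin n ⊕ Fin n), sp_inl]
  have hw0 : sp b w ≠ 0 := by
    intro h0
    rw [h0] at hwb
    exact hwb (dvd_zero _)
  let φ : MvPolynomial (Fin n) ℂ := X i₀ ^ e * sp b w
  have key1 : ∀ i, ∃ u ∈ U V b, lf b ∣ u - X i * φ := by
    intro i
    obtain ⟨y, r, hy⟩ := wY_fam_deriv p x (e + 2) w hk (i :: List.replicate e i₀) 1 (by
      rw [List.length_cons, List.length_replicate])
    have h1 := hspV y
    rw [hy, List.map_cons, List.prod_cons, List.map_replicate, List.prod_replicate] at h1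
    simp only [map_add, map_mul, map_pow, sp_q', hspX] at h1
    refine ⟨X i * φ + lf b * sp b r, ?_, ?_⟩
    · rw [mem_U]
      convert h1 using 1
      simp only [φ]
      ring
    · rw [add_sub_cancel_left]
      exact dvd_mul_right _ _
  have key2 : ∀ i j, ∃ v ∈ V, lf b ∣ v - X i * X j * φ := by
    intro i j
    obtain ⟨y, r, hy⟩ := wY_fam_deriv p x (e + 2) w hk (i :: j :: List.replicate e i₀) 0 (by
      rw [List.length_cons, List.length_cons, List.length_replicate])
    have h1 := hspV y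
    rw [hy, List.map_cons, List.prod_cons, List.map_cons, List.prod_cons, List.map_replicate,
      List.prod_replicate] at h1
    simp only [map_add, map_mul, map_pow, sp_q', hspX] at h1
    refine ⟨_, h1, ?_⟩
    refine ⟨sp b r, ?_⟩
    simp only [φ]
    ring
  refine ⟨φ, ?_, fun a => ?_, fun a c => ?_, ?_⟩
  · intro hd
    rcases (lf_prime hbn).dvd_or_dvd hd with h1 | h1
    · have h2 := (lf_prime hbn).dvd_of_dvd_pow h1
      rw [← wY_lf_single] at h2
      have h3 : Ind b (Pi.single i₀ 1) := by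
        refine ⟨i₁, i₀, ?_⟩
        have hne : i₁ ≠ i₀ := by simp [i₀, i₁, Fin.ext_iff]
        rw [Pi.single_eq_same, Pi.single_eq_of_ne hne, mul_one, mul_zero, sub_zero]
        exact hb1
      exact h3.not_dvd h2
    · exact hwb h1
  · choose u hu hud using key1
    refine ⟨∑ i, a i • u i, (U V b).sum_mem fun i _ => (U V b).smul_mem _ (hu i), ?_⟩
    have h1 : ∑ i, a i • u i - lf a * φ = ∑ i, C (a i) * (u i - X i * φ) := by
      unfold lf
      rw [Finset.sum_mul, ← Finset.sum_sub_distrib]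
      refine Finset.sum_congr rfl fun i _ => ?_
      rw [smul_eq_C_mul]
      ring
    rw [h1]
    exact Finset.dvd_sum fun i _ => (hud i).mul_left _
  · choose v hv hvd using key2
    refine ⟨∑ i, ∑ j, (a i * c j) • v i j, V.sum_mem fun i _ => V.sum_mem fun j _ =>
      V.smul_mem _ (hv i j), ?_⟩
    have h1 : ∑ i, ∑ j, (a i * c j) • v i j - lf a * lf c * φ =
        ∑ i, ∑ j, C (a i * c j) * (v i j - X i * X j * φ) := by
      unfold lf
      rw [Finset.sum_mul_sum, Finset.sum_mul, ← Finset.sum_sub_distrib]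
      refine Finset.sum_congr rfl fun i _ => ?_
      rw [Finset.sum_mul, ← Finset.sum_sub_distrib]
      refine Finset.sum_congr rfl fun j _ => ?_
      rw [smul_eq_C_mul, C_mul]
      ring
    rw [h1]
    exact Finset.dvd_sum fun i _ => Finset.dvd_sum fun j _ => (hvd i j).mul_left _
  · refine ⟨lf b ^ (e + 1) * sp b w, ?_, mul_ne_zero (pow_ne_zero _ (lf_ne_zero hbn)) hw0, ?_⟩
    · rw [mem_U]
      have h1 := hspV x
      rw [hk] at h1
      convert h1 using 1
      simp only [map_mul, map_pow, sp_q']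
      ring
    · exact (dvd_pow_self _ (Nat.succ_ne_zero e)).mul_right _

end Pool.Agent.Lib_helper97.Ebe
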